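import Pool.Agent.H72.PSV.T1

/-!
# Row CN1: power saving for one integer from the local statement
-/

set_option autoImplicit false

open Finset Filter

namespace Pool.Agent.H81.PSV

open Pool.Agent.H72.PSV
open Pool.Agent.H72.BF (badR)

open Classical in
/-- from short intervals to `{1, ..., x}` -/
theorem count_blocks (p : ℕ → Prop) (r N1 x : ℕ) (e : ℝ) (he : 0 < e) (he1 : e ≤ 1)
    (hx1 : 1 ≤ x) (hx : N1 ^ 2 ≤ x)
    (hloc : ∀ N : ℕ, N1 ≤ N → 1 ≤ N → N ≤ x → ∀ a : Fin (r + 2) → ℕ, StrictMono a → N ≤ a 0 →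
      (∀ i, (a i : ℝ) ≤ N + (N : ℝ) ^ e) → ∃ i, ¬ p (a i)) :
    (((Finset.Icc 1 x).filter p).card : ℝ) ≤ (3 * r + 4) * (x : ℝ) ^ (1 - e / 2) := by
  have hxR : (1 : ℝ) ≤ x := by exact_mod_cast hx1
  set y : ℝ := (x : ℝ) ^ (e / 2) with hy
  have hy1 : 1 ≤ y := Real.one_le_rpow hxR (by linarith)
  set L : ℕ := ⌊y⌋₊ with hL
  have hL1 : 1 ≤ L := Nat.one_le_floor_iff y |>.2 hy1
  have hLy : (L : ℝ) ≤ y := Nat.floor_le (by linarith)
  have hyL : y ≤ 2 * L := by
    have h1 := Nat.lt_floor_add_one y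
    have h2 : (1 : ℝ) ≤ L := by exact_mod_cast hL1
    rw [← hL] at h1
    linarith
  have hz1 : 1 ≤ (x : ℝ) ^ (1 - e / 2) := Real.one_le_rpow hxR (by linarith)
  -- the small elements
  have hsmall : ((((Finset.Icc 1 x).filter p).filter (fun a => a ^ 2 ≤ x)).card : ℝ) ≤
      (x : ℝ) ^ (1 - e / 2) := by
    have h1 : (((Finset.Icc 1 x).filter p).filter (fun a => a ^ 2 ≤ x)).card ≤ Nat.sqrt x := by
      calc _ ≤ (Finset.Icc 1 (Nat.sqrt x)).card := by
            apply Finset.card_le_card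
            intro a ha
            simp only [Finset.mem_filter, Finset.mem_Icc] at ha ⊢
            refine ⟨ha.1.1.1, ?_⟩
            rw [Nat.le_sqrt']
            exact ha.2
        _ = Nat.sqrt x := by simp
    have h2 : ((Nat.sqrt x : ℕ) : ℝ) ≤ (x : ℝ) ^ ((1 : ℝ) / 2) := by
      rw [← Real.sqrt_eq_rpow]
      exact Real.nat_sqrt_le_real_sqrt
    have h3 : (x : ℝ) ^ ((1 : ℝ) / 2) ≤ (x : ℝ) ^ (1 - e / 2) :=
      Real.rpow_le_rpow_of_exponent_le hxR (by linarith)
    have h4 : ((((Finset.Icc 1 x).filter p).filter (fun a => a ^ 2 ≤ x)).card : ℝ) ≤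
      (Nat.sqrt x : ℕ) := by exact_mod_cast h1
    linarith
  -- the large elements
  set B : Finset ℕ := ((Finset.Icc 1 x).filter p).filter (fun a => ¬ a ^ 2 ≤ x) with hB
  have hBm : ∀ a ∈ B, 1 ≤ a ∧ a ≤ x ∧ p a ∧ x < a ^ 2 := by
    intro a ha
    rw [hB, Finset.mem_filter, Finset.mem_filter, Finset.mem_Icc] at ha
    exact ⟨ha.1.1.1, ha.1.1.2, ha.1.2, not_le.1 ha.2⟩
  have hblock : ∀ j ∈ Finset.range (x / L + 1), (B.filter (fun a => a / L = j)).card ≤ r + 1 := by
    intro j _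
    by_contra hcon
    push Not at hcon
    set s := B.filter (fun a => a / L = j) with hs
    have hcard : r + 2 ≤ s.card := by omega
    set a : Fin (r + 2) → ℕ := fun i => Finset.orderEmbOfCardLe s hcard i with ha
    have hmem : ∀ i, a i ∈ s := fun i => Finset.orderEmbOfCardLe_mem s hcard i
    have hmono : StrictMono a := (Finset.orderEmbOfCardLe s hcard).strictMono
    have hm : ∀ i, a i ∈ B ∧ a i / L = j := fun i => by
      have := hmem i
      rwa [hs, Finset.mem_filter] at this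
    have h0 := hBm _ (hm 0).1
    have hN1 : N1 ≤ a 0 := by
      by_contra h
      push Not at h
      have := h0.2.2.2
      nlinarith
    obtain ⟨i, hi⟩ := hloc (a 0) hN1 h0.1 h0.2.1 a hmono le_rfl (by
      intro i
      have h1 : a i < (j + 1) * L := by
        have h2 := Nat.lt_div_mul_add (a := a i) (b := L) (by omega)
        rw [(hm i).2] at h2
        linarith
      have h3 : j * L ≤ a 0 := by
        have h4 := Nat.div_mul_le_self (a 0) L
        rwa [(hm 0).2] at h4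
      have h5 : a i ≤ a 0 + L := by
        have : (j + 1) * L = j * L + L := by ring
        omega
      have h6 : (a i : ℝ) ≤ a 0 + L := by exact_mod_cast h5
      have h7 : y ≤ ((a 0 : ℕ) : ℝ) ^ e := by
        have h8 : (x : ℝ) ≤ ((a 0 : ℕ) : ℝ) ^ (2 : ℝ) := by
          rw [show (2 : ℝ) = ((2 : ℕ) : ℝ) by norm_num, Real.rpow_natCast]
          exact_mod_cast h0.2.2.2.le
        calc y ≤ (((a 0 : ℕ) : ℝ) ^ (2 : ℝ)) ^ (e / 2) :=
              Real.rpow_le_rpow (by positivity) h8 (by linarith)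
          _ = ((a 0 : ℕ) : ℝ) ^ e := by
              rw [← Real.rpow_mul (Nat.cast_nonneg _)]
              congr 1
              ring
      linarith)
    exact hi (hBm _ (hm i).1).2.2.1
  have hBcard : B.card ≤ (r + 1) * (x / L + 1) := by
    have h1 := Finset.card_le_mul_card_image_of_maps_to (f := fun a => a / L) (s := B)
      (t := Finset.range (x / L + 1)) (fun a ha => by
        rw [Finset.mem_range]
        exact Nat.lt_succ_of_le (Nat.div_le_div_right (hBm a ha).2.1)) (r + 1) hblock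
    rwa [Finset.card_range] at h1
  have hxL : ((x / L : ℕ) : ℝ) ≤ 2 * (x : ℝ) ^ (1 - e / 2) := by
    have h1 : ((x / L : ℕ) : ℝ) ≤ (x : ℝ) / L := Nat.cast_div_le
    have h2 : (0 : ℝ) < L := by exact_mod_cast hL1
    have h3 : (x : ℝ) ^ (1 - e / 2) * y = x := by
      rw [hy, ← Real.rpow_add (by linarith)]
      simp
    have h4 : (x : ℝ) / L ≤ 2 * (x : ℝ) ^ (1 - e / 2) := by
      rw [div_le_iff₀ h2]
      nlinarith [mul_le_mul_of_nonneg_left hyL (by linarith : (0 : ℝ) ≤ (x : ℝ) ^ (1 - e / 2))]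
    linarith
  have hsplit : ((Finset.Icc 1 x).filter p).card =
      (((Finset.Icc 1 x).filter p).filter (fun a => a ^ 2 ≤ x)).card + B.card := by
    rw [hB, Finset.card_filter_add_card_filter_not]
  have hBR : (B.card : ℝ) ≤ (r + 1) * (((x / L : ℕ) : ℝ) + 1) := by exact_mod_cast hBcard
  rw [hsplit]
  push_cast
  have hr : (0 : ℝ) ≤ r := Nat.cast_nonneg _
  have h9 : ((r : ℝ) + 1) * (((x / L : ℕ) : ℝ) + 1) ≤
      (r + 1) * (3 * (x : ℝ) ^ (1 - e / 2)) :=
    mul_le_mul_of_nonneg_left (by linarith) (by linarith)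
  nlinarith [hsmall, hBR, h9]

theorem cn1 (h : T_LOC) : T_CN1 := by
  classical
  intro r d
  obtain ⟨dl, N1, hdl, hl⟩ := h r d
  set e : ℝ := min dl 1 with he
  have he0 : 0 < e := lt_min hdl one_pos
  have he1 : e ≤ 1 := min_le_right _ _
  have hed : e ≤ dl := min_le_left _ _
  refine ⟨e / 2, (N1 : ℝ) ^ 2 + (3 * r + 4), by positivity, by linarith, by positivity, ?_⟩
  intro A
  obtain ⟨C, hC, hl⟩ := hl A
  refine ⟨C, hC, ?_⟩
  intro x hx1 H hH hxH ξ hξ
  have hxR : (1 : ℝ) ≤ x := by exact_mod_cast hx1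
  have hz1 : 1 ≤ (x : ℝ) ^ (1 - e / 2) := Real.one_le_rpow hxR (by linarith)
  have hset : {a : ℕ | 1 ≤ a ∧ a ≤ x ∧ badR ξ d A C H ((Real.log a : ℝ) : ℂ)} =
      (((Finset.Icc 1 x).filter (fun a : ℕ => badR ξ d A C H ((Real.log a : ℝ) : ℂ)) : Finset ℕ) :
        Set ℕ) := by
    ext a
    simp [and_assoc]
  rw [hset, Set.ncard_coe_finset]
  have hr : (0 : ℝ) ≤ r := Nat.cast_nonneg _
  rcases le_or_gt (N1 ^ 2) x with hN | hN
  · have h1 := count_blocks (fun a : ℕ => badR ξ d A C H ((Real.log a : ℝ) : ℂ)) r N1 x e he0 he1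
      hx1 hN (by
        intro N hN1 hN2 hN3 a ha1 ha2 ha3
        refine hl H hH ξ hξ N hN1 hN2 (le_trans (by exact_mod_cast hN3) hxH) a ha1 ha2 ?_
        intro i
        have h2 : (N : ℝ) ^ e ≤ (N : ℝ) ^ dl :=
          Real.rpow_le_rpow_of_exponent_le (by exact_mod_cast hN2) hed
        linarith [ha3 i])
    have h3 : 0 ≤ (N1 : ℝ) ^ 2 * (x : ℝ) ^ (1 - e / 2) := by positivity
    linarith
  · have h1 : ((Finset.Icc 1 x).filter
        (fun a : ℕ => badR ξ d A C H ((Real.log a : ℝ) : ℂ))).card ≤ x := by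
      calc _ ≤ (Finset.Icc 1 x).card := Finset.card_filter_le _ _
        _ = x := by simp
    have h2 : (((Finset.Icc 1 x).filter
        (fun a : ℕ => badR ξ d A C H ((Real.log a : ℝ) : ℂ))).card : ℝ) ≤ (N1 : ℝ) ^ 2 := by
      exact_mod_cast h1.trans hN.le
    have h3 : (N1 : ℝ) ^ 2 * 1 ≤ (N1 : ℝ) ^ 2 * (x : ℝ) ^ (1 - e / 2) :=
      mul_le_mul_of_nonneg_left hz1 (by positivity)
    have h4 : 0 ≤ (3 * (r : ℝ) + 4) * (x : ℝ) ^ (1 - e / 2) := by positivity
    linarith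

end Pool.Agent.H81.PSV
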