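import Pool.Agent.H72.PSV.T1

/-!
# Row CNN: power saving for tuples from the statement for one integer
-/

set_option autoImplicit false

open Finset Filter

namespace Pool.Agent.H81.PSV

open Pool.Agent.H72.PSV
open Pool.Agent.H72.BF (badR badRN badRN_succ not_badRN_zero)

theorem norm_log_le {a x : ℕ} {H : ℝ} (ha : 1 ≤ a) (hax : a ≤ x) (hx : (x : ℝ) ≤ H) :
    ‖((Real.log a : ℝ) : ℂ)‖ ≤ H := by
  have h1 : (1 : ℝ) ≤ a := by exact_mod_cast ha
  rw [Complex.norm_real, Real.norm_eq_abs, abs_of_nonneg (Real.log_nonneg h1)]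
  have h2 := Real.log_le_sub_one_of_pos (by linarith : (0 : ℝ) < a)
  have h3 : (a : ℝ) ≤ x := by exact_mod_cast hax
  linarith

theorem cnn (h : T_CN1) : T_CNN := by
  classical
  intro r n d
  induction n with
  | zero =>
    refine ⟨1, 1, one_pos, le_rfl, one_pos, fun A => ⟨max A 1, by positivity, ?_⟩⟩
    intro x hx H hH hxH ξ hξ
    have h1 : {a : Fin 0 → ℕ | (∀ i, 1 ≤ a i ∧ a i ≤ x) ∧
        badRN ξ d A (max A 1) H (fun i => ((Real.log (a i) : ℝ) : ℂ))} = ∅ := by
      ext a
      simp only [Set.mem_ofPred_eq, Set.mem_empty_iff_false, iff_false, not_and]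
      intro _
      exact not_badRN_zero ξ d A _ H (le_max_left _ _) hH _
    rw [h1]
    have h2 : (0 : ℝ) ≤ (x : ℝ) ^ (((0 : ℕ) : ℝ) - 1) := by positivity
    simp only [Set.ncard_empty, Nat.cast_zero, one_mul] at h2 ⊢
    exact h2
  | succ n ih =>
    obtain ⟨dl1, C01, hdl1, hdl1', hC01, h1⟩ := ih
    obtain ⟨dl2, C02, hdl2, hdl2', hC02, h2⟩ := h (r + n) d
    refine ⟨min dl1 dl2, C01 + C02, lt_min hdl1 hdl2, (min_le_left _ _).trans hdl1',
      by positivity, ?_⟩
    intro A
    obtain ⟨C1, hC1, hG1⟩ := h1 A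
    obtain ⟨C2, hC2, hG2⟩ := h2 C1
    refine ⟨C2, hC2, ?_⟩
    intro x hx H hH hxH ξ hξ
    have hxR : (1 : ℝ) ≤ x := by exact_mod_cast hx
    have hG1 := hG1 x hx H hH hxH ξ hξ
    let f : ℕ → ℂ := fun m => ((Real.log m : ℝ) : ℂ)
    set XX : Finset (Fin n → ℕ) := Fintype.piFinset (fun _ => Finset.Icc 1 x) with hXX
    set Bf : Finset (Fin (n + 1) → ℕ) :=
      (Fintype.piFinset (fun _ => Finset.Icc 1 x)).filter
        (fun a => badRN ξ d A C2 H (fun i => f (a i))) with hBf
    set Gf : Finset (Fin n → ℕ) := XX.filter (fun a => badRN ξ d A C1 H (fun i => f (a i)))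
      with hGf
    have e1 : {a : Fin (n + 1) → ℕ | (∀ i, 1 ≤ a i ∧ a i ≤ x) ∧
        badRN ξ d A C2 H (fun i => ((Real.log (a i) : ℝ) : ℂ))} = (Bf : Set _) := by
      ext a
      simp [hBf, Fintype.mem_piFinset, f]
    have e2 : {a : Fin n → ℕ | (∀ i, 1 ≤ a i ∧ a i ≤ x) ∧
        badRN ξ d A C1 H (fun i => ((Real.log (a i) : ℝ) : ℂ))} = (Gf : Set _) := by
      ext a
      simp [hGf, hXX, Fintype.mem_piFinset, f]
    rw [e1, Set.ncard_coe_finset]
    rw [e2, Set.ncard_coe_finset] at hG1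
    have hmem : ∀ a ∈ Bf, (∀ i, a i ∈ Finset.Icc 1 x) ∧
        badRN ξ d A C2 H (fun i => f (a i)) := by
      intro a ha
      rw [hBf, Finset.mem_filter, Fintype.mem_piFinset] at ha
      exact ha
    have hmaps : ∀ a ∈ Bf, Fin.init a ∈ XX := by
      intro a haB
      rw [hXX, Fintype.mem_piFinset]
      intro i
      exact (hmem a haB).1 _
    have hcard : Bf.card = ∑ a' ∈ XX, (Bf.filter (fun a => Fin.init a = a')).card :=
      Finset.card_eq_sum_card_fiberwise (f := fun a : Fin (n + 1) → ℕ => (Fin.init a : Fin n → ℕ))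
        (s := Bf) (t := XX) hmaps
    have hfib0 : ∀ a' : Fin n → ℕ, (Bf.filter (fun a => Fin.init a = a')).card ≤ x := by
      intro a'
      have h3 : (Bf.filter (fun a => Fin.init a = a')).card ≤ (Finset.Icc 1 x).card := by
        refine Finset.card_le_card_of_injOn (fun a => a (Fin.last n)) ?_ ?_
        · intro a haf
          rw [Finset.mem_coe, Finset.mem_filter] at haf
          exact (hmem a haf.1).1 _
        · intro a haf b hbf hab
          rw [Finset.mem_coe, Finset.mem_filter] at haf hbf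
          rw [← Fin.snoc_init_self a, ← Fin.snoc_init_self b, haf.2, hbf.2]
          simp only at hab
          rw [hab]
      simpa using h3
    have hfib : ∀ a' : Fin n → ℕ, ¬ badRN ξ d A C1 H (fun i => f (a' i)) →
        (Bf.filter (fun a => Fin.init a = a')).card ≤
        ((Finset.Icc 1 x).filter
          (fun z => badR (Fin.append ξ fun i => f (a' i)) d C1 C2 H (f z))).card := by
      intro a' hnb
      refine Finset.card_le_card_of_injOn (fun a => a (Fin.last n)) ?_ ?_
      · intro a haf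
        rw [Finset.mem_coe, Finset.mem_filter] at haf
        rw [Finset.mem_coe, Finset.mem_filter]
        obtain ⟨haB, hin⟩ := haf
        have h5 : (Fin.init (fun i => f (a i)) : Fin n → ℂ) = fun i => f (a' i) := by
          funext i
          rw [← hin]
          rfl
        refine ⟨(hmem a haB).1 _, ?_⟩
        have h3 := badRN_succ ξ d A C2 C1 H (fun i => f (a i)) (hmem a haB).2
          (by rw [h5]; exact hnb)
        rw [h5] at h3
        exact h3
      · intro a haf b hbf hab
        rw [Finset.mem_coe, Finset.mem_filter] at haf hbf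
        rw [← Fin.snoc_init_self a, ← Fin.snoc_init_self b, haf.2, hbf.2]
        simp only at hab
        rw [hab]
    have hG3 : ∀ a' ∈ XX,
        (((Finset.Icc 1 x).filter
          (fun z => badR (Fin.append ξ fun i => f (a' i)) d C1 C2 H (f z))).card : ℝ) ≤
          C02 * (x : ℝ) ^ (1 - dl2) := by
      intro a' ha'
      rw [hXX, Fintype.mem_piFinset] at ha'
      have h3 := hG2 x hx H hH hxH (Fin.append ξ fun i => f (a' i)) (by
        intro i
        refine Fin.addCases (fun i => ?_) (fun i => ?_) i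
        · rw [Fin.append_left]; exact hξ i
        · rw [Fin.append_right]
          exact norm_log_le (Finset.mem_Icc.1 (ha' i)).1 (Finset.mem_Icc.1 (ha' i)).2 hxH)
      refine le_trans ?_ h3
      rw [← Set.ncard_coe_finset]
      have h6 : (↑((Finset.Icc 1 x).filter
          (fun z => badR (Fin.append ξ fun i => f (a' i)) d C1 C2 H (f z))) : Set ℕ) =
          {a : ℕ | 1 ≤ a ∧ a ≤ x ∧
            badR (Fin.append ξ fun i => f (a' i)) d C1 C2 H ((Real.log a : ℝ) : ℂ)} := by
        ext z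
        simp [and_assoc, f]
      rw [h6]
    have hbound : ∀ a' ∈ XX, ((Bf.filter (fun a => Fin.init a = a')).card : ℝ) ≤
        (if a' ∈ Gf then (x : ℝ) else 0) + C02 * (x : ℝ) ^ (1 - dl2) := by
      intro a' haX
      have h7 : 0 ≤ C02 * (x : ℝ) ^ (1 - dl2) := by positivity
      by_cases hg : a' ∈ Gf
      · rw [if_pos hg]
        have : ((Bf.filter (fun a => Fin.init a = a')).card : ℝ) ≤ x := by
          exact_mod_cast hfib0 a'
        linarith
      · rw [if_neg hg, zero_add]
        have hnb : ¬ badRN ξ d A C1 H (fun i => f (a' i)) := by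
          intro hb
          exact hg (Finset.mem_filter.2 ⟨haX, hb⟩)
        refine le_trans ?_ (hG3 a' haX)
        exact_mod_cast hfib a' hnb
    have hXn : (XX.card : ℝ) = (x : ℝ) ^ n := by
      rw [hXX, Fintype.card_piFinset_const]
      simp
    rw [hcard]
    push_cast
    refine (Finset.sum_le_sum hbound).trans ?_
    rw [Finset.sum_add_distrib, Finset.sum_const, nsmul_eq_mul, hXn, ← Finset.sum_filter]
    have h5 : ∑ _a ∈ XX.filter (fun a' => a' ∈ Gf), (x : ℝ) ≤ Gf.card * x := by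
      rw [Finset.sum_const, nsmul_eq_mul]
      refine mul_le_mul_of_nonneg_right ?_ (Nat.cast_nonneg _)
      exact_mod_cast Finset.card_le_card (fun a haf => (Finset.mem_filter.1 haf).2)
    have h6 : (Gf.card : ℝ) * x ≤ C01 * (x : ℝ) ^ ((n : ℝ) - dl1) * x :=
      mul_le_mul_of_nonneg_right hG1 (Nat.cast_nonneg _)
    have hx0 : (0 : ℝ) < x := by linarith
    have h8 : (x : ℝ) ^ ((n : ℝ) - dl1) * x = (x : ℝ) ^ ((n : ℝ) + 1 - dl1) := by
      nth_rw 2 [← Real.rpow_one (x : ℝ)]
      rw [← Real.rpow_add hx0]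
      congr 1
      ring
    have h9 : (x : ℝ) ^ n * (x : ℝ) ^ (1 - dl2) = (x : ℝ) ^ ((n : ℝ) + 1 - dl2) := by
      rw [← Real.rpow_natCast, ← Real.rpow_add hx0]
      congr 1
      ring
    have h10 : (x : ℝ) ^ ((n : ℝ) + 1 - dl1) ≤ (x : ℝ) ^ ((n : ℝ) + 1 - min dl1 dl2) :=
      Real.rpow_le_rpow_of_exponent_le hxR (by linarith [min_le_left dl1 dl2])
    have h11 : (x : ℝ) ^ ((n : ℝ) + 1 - dl2) ≤ (x : ℝ) ^ ((n : ℝ) + 1 - min dl1 dl2) :=
      Real.rpow_le_rpow_of_exponent_le hxR (by linarith [min_le_right dl1 dl2])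
    have h12 := mul_le_mul_of_nonneg_left h10 hC01.le
    have h13 := mul_le_mul_of_nonneg_left h11 hC02.le
    have h14 : C01 * (x : ℝ) ^ ((n : ℝ) - dl1) * x = C01 * (x : ℝ) ^ ((n : ℝ) + 1 - dl1) := by
      rw [mul_assoc, h8]
    have h15 : (x : ℝ) ^ n * (C02 * (x : ℝ) ^ (1 - dl2)) = C02 * (x : ℝ) ^ ((n : ℝ) + 1 - dl2) := by
      rw [← h9]
      ring
    rw [h15]
    rw [h14] at h6
    linarith

end Pool.Agent.H81.PSV
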